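import Pool.Agent.Q57.FD.Main

/-!
# Fundamental domains on the nef cones of the toroidal models of covers of products of projective spaces

Let `F i` be a form of degree `d i` in `n i + 1` variables whose zero set in the projective
`n i`-space is a smooth hypersurface, and let `H i` be the cyclic hypersurface `w ^ (d i) = F i` in
the projective `(n i + 1)`-space. Let `K` be the function field of a quotient
`Y = (H 1 × ... × H r) / G`, where `G` is any group of diagonal automorphisms
`w i ↦ ζ i * w i`, `ζ i ^ (d i) = 1`. Equivalently, `K` is generated by the affine coordinates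
`x i j / x i 0` of the product of the projective `n i`-spaces and by roots `z j`,
`z j ^ (m j) = ∏ i, (F i (x i) / x i 0 ^ (d i)) ^ (a j i)`, where `m j` divides `a j i * d i`: the
abelian covers of the product of the projective spaces which are branched along the hypersurfaces
`F i = 0` of the factors. There is no condition on the dimensions and the degrees.

A prime divisor `P` over `Y` (a divisorial place of `K`) has the vector `multiplicities F d x P` of the
multiplicities `v i` of the hypersurfaces along `P`. The vectors `v ≠ 0` of nonnegative integers with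
`m j ∣ ∑ i, a j i * v i` for all `j` are the `Admissible` ones: the nonzero points, in the positive
orthant, of the lattice of the toroidal variety `Y`.

**The varieties.** The toroidal modifications `X` of `Y` are given by the subdivisions (fans) of the
positive orthant into rational polyhedral cones; `fan` is the set of the maximal cones, each given by
a finite set of admissible generators which span the space. Smooth examples with `K_X = 0`: let `Y`
be the double cover of the product of the projective spaces which is branched along the union of the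
hypersurfaces `F i = 0`, with `d i = 2 (n i + 1)`: here `z ^ 2 = ∏ i, F i (x i) / x i 0 ^ (d i)`, and
the lattice consists of the vectors with an even sum. Then `K_Y = 0`, and for every triangulation of
the simplex `∑ i, v i = 2` with all its integral points as vertices whose simplices have the minimal
volume (there are many for `r ≥ 3`, related by flops) the modification `X` is a smooth variety with
`K_X = 0`, projective if the triangulation is regular, of the dimension `∑ i, n i`, with the Picard
number `r (r + 1) / 2` if all `n i ≥ 3`. Similarly for the quotients `Y` of products of cyclic covers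
`Y i` of the projective spaces with `K = 0` (double covers, quintic threefolds `w ^ 5 = F`, triple
covers of the projective `3`-space branched along sextics, ...) by groups of diagonal automorphisms
which preserve the volume form, and their crepant toroidal resolutions `X`.

**The divisors.** `D 1, ..., D p` are toroidal `ℚ`-Cartier divisors on `X`: sums of multiples `β i t`
of the hyperplane classes of the factors and of the prime divisors of the boundary of `X`. The
coefficient of the pullback of `D i` at a prime divisor `P` over `X` is
`coefficient F d x (c i) (β i) P = c i v + ∑ t, β i t * h t`, where `v` is the vector of the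
multiplicities, `h t` is minus the minimal order at `P` of the homogeneous coordinates of the `t`-th
factor, and `- c i v = ∑ k, u σ i k * v k` on the cone `σ`. If all `n i ≥ 3` then every divisor on `X`
is, up to `ℚ`-linear equivalence, toroidal (Lefschetz; this is not used and not proved here). Then,
for a suitable multiple `k`, there are toroidal Cartier divisors `D i` which are a basis of
`k * (Pic X / ≡)`, the real combinations `∑ i, lam i * D i` are the vector space `N¹(X)`, and the
automorphisms of `X` act on it by elements of `GL_p(ℤ)`.

**The theorem.** Assume that the `D i` are numerically independent (there is no combination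
`lam ≠ 0` with `lam` and `- lam` in the cone) and that the effective nef cone of the combinations has
interior points (this is the case if `X` is projective and an ample divisor is a combination of the
`D i`). Let `Γ` be an arbitrary group of integral matrices which preserve the effective nef cone, for
example the group by which the automorphisms of `X` act. Then `Γ` is finite, and there is a rational
polyhedral cone `Π`, which is generated by classes of integral divisors without base points, such
that the effective nef cone is the union of the cones `g Π`, `g ∈ Γ`, and the interiors of `Π` and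
`g Π` are disjoint for all `g ≠ 1` in `Γ`. This is the statement of the question for `X` (with the
Lefschetz theorem if all `n i ≥ 3`). The theorem also says that all nef combinations are effective;
there is no condition on `K_X`.
-/

set_option autoImplicit false

open FF MvPolynomial Pool.Agent.W602.GT

namespace Pool.Agent.Results.MP_e49dc9_ag.FundamentalDomains

/-- The form `F` has no singular zeros: its partial derivatives have no common zero but `0`. -/
def Smooth {n : ℕ} (F : MvPolynomial (Fin (n + 1)) ℂ) : Prop :=
  ∀ x : Fin (n + 1) → ℂ, x ≠ 0 → ∃ l, eval x (pderiv l F) ≠ 0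

section fans

variable {r R : ℕ}

/-- The multiplicities which satisfy the divisibility conditions. -/
def Admissible (m : Fin R → ℕ) (a : Fin R → Fin r → ℕ) (v : Fin r → ℕ) : Prop :=
  v ≠ 0 ∧ ∀ j, m j ∣ ∑ i, a j i * v i

/-- The vector `v` is in the cone which is generated by the vectors in `σ`. -/
def InCone (σ : Finset (Fin r → ℕ)) (v : Fin r → ℕ) : Prop :=
  ∃ w : (Fin r → ℕ) → ℚ, (∀ s, 0 ≤ w s) ∧ ∀ k, (v k : ℚ) = ∑ s ∈ σ, w s * s k

/-- `fan` is a finite set of cones, each generated by a finite set of admissible vectors which span
the whole space, which cover all admissible vectors. -/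
structure IsFan (m : Fin R → ℕ) (a : Fin R → Fin r → ℕ) (fan : Finset (Finset (Fin r → ℕ))) :
    Prop where
  adm : ∀ σ ∈ fan, ∀ s ∈ σ, Admissible m a s
  full : ∀ σ ∈ fan, ∀ f : Fin r → ℚ, ∃ q : (Fin r → ℕ) → ℚ, ∀ k, f k = ∑ s ∈ σ, q s * s k
  cover : ∀ v, Admissible m a v → ∃ σ ∈ fan, InCone σ v

end fans

section places

variable {r : ℕ} {n : Fin r → ℕ} {K : Type} [Field K] [Algebra ℂ K]

/-- The affine coordinates of the product of the projective spaces. -/
noncomputable def affine (x : ∀ i, Fin (n i + 1) → K) (b : (i : Fin r) × Fin (n i)) : K :=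
  x b.1 b.2.succ / x b.1 0

/-- The minimal order at `P` of the homogeneous coordinates `y`. -/
noncomputable def minimalOrder {n : ℕ} (y : Fin (n + 1) → K) (P : Place ℂ K) : ℤ :=
  Finset.univ.inf' Finset.univ_nonempty fun j => P.ord (y j)

/-- The multiplicities of the hypersurfaces `F i = 0` along the prime divisor `P`; the `x i j` are the
homogeneous coordinates of the `i`-th factor, which are divided by one of minimal order at `P`. -/
noncomputable def multiplicities (F : ∀ i, MvPolynomial (Fin (n i + 1)) ℂ) (d : Fin r → ℕ)
    (x : ∀ i, Fin (n i + 1) → K) (P : Place ℂ K) (i : Fin r) : ℕ :=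
  (P.ord (aeval (x i) (F i)) - d i * minimalOrder (x i) P).toNat

/-- The coefficient at the prime divisor `P` of the divisor with the function `c` of the
multiplicities and the degrees `β t`: it is `c v` plus `β t` times the coefficient at `P` of the
hyperplane class of the `t`-th factor, which is represented by the divisor with the coefficients
`- minimalOrder (x t) P` (its sections are the linear forms in the `x t j`). -/
noncomputable def coefficient (F : ∀ i, MvPolynomial (Fin (n i + 1)) ℂ) (d : Fin r → ℕ)
    (x : ∀ i, Fin (n i + 1) → K) (c : (Fin r → ℕ) → ℚ) (β : Fin r → ℤ) (P : Place ℂ K) : ℚ :=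
  c (multiplicities F d x P) - ∑ t, (β t : ℚ) * minimalOrder (x t) P

end places

section sections

variable {K : Type} [Field K] [Algebra ℂ K] {p : ℕ} (N : ℕ) (δ : Fin p → Place ℂ K → ℚ)

/-- `f` is a section of `∑ i, μ i * D i + j * A`: its order at every prime divisor `P` (every
divisorial place `P` of `K`) is at least `j` times the order of one of the functions in `S`, minus
the coefficient `∑ i, μ i * δ i P` of `∑ i, μ i * D i`. Here `A` is the divisor which is generated by
the finite set `S` of functions; `A = 0` if `S = {1}`. -/
def IsSection (S : Finset K) (μ : Fin p → ℤ) (j : ℕ) (f : K) : Prop :=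
  ∀ P : Place ℂ K, Divisorial N P → f = 0 ∨ ∃ s ∈ S, s ≠ 0 ∧
    (j : ℚ) * P.ord s - ∑ i, (μ i : ℚ) * δ i P ≤ P.ord f

/-- The real combination `L = ∑ i, lam i * D i` is nef: there is a divisor `A` such that all
`M L + A`, `M ≥ 1`, are semiample in the following sense: there is `j ≥ 1` such that for every prime
divisor `P` there is an integral combination `∑ i, μ i * D i` with `|μ i - j * M * lam i| ≤ j` such
that `∑ i, μ i * D i + j * A` has a section of the minimal order at `P`. This holds if `L` is nef in
the usual sense and `A` is a sufficiently ample divisor on a projective variety `X` (then the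
divisors `∑ i, μ i * D i + j * A` are ample, and base point free for a suitable multiple `j`). -/
def Nef (lam : Fin p → ℝ) : Prop :=
  ∃ S : Finset K, (∃ s ∈ S, s ≠ 0) ∧ ∀ M : ℕ, 1 ≤ M → ∃ j : ℕ, 1 ≤ j ∧
    ∀ P : Place ℂ K, Divisorial N P → ∃ μ : Fin p → ℤ, (∀ i, |(μ i : ℝ) - j * M * lam i| ≤ j) ∧
      ∃ f : K, f ≠ 0 ∧ IsSection N δ S μ j f ∧ ∀ s ∈ S, s ≠ 0 →
        (P.ord f : ℚ) ≤ j * P.ord s - ∑ i, (μ i : ℚ) * δ i P

/-- The linear system of the integral combination `∑ i, μ i * D i` has no base points: it has for
every prime divisor `P` over `X` a section which does not vanish at `P`, that is, its order at `P` is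
the minimal one. (If the linear system has a base point on `X` then all sections vanish at the
exceptional divisor of its blowing up.) -/
def BasePointFree (μ : Fin p → ℤ) : Prop :=
  ∀ P : Place ℂ K, Divisorial N P → ∃ f : K, f ≠ 0 ∧ IsSection N δ {1} μ 0 f ∧
    (P.ord f : ℚ) ≤ - ∑ i, (μ i : ℚ) * δ i P

/-- The real combination `∑ i, lam i * D i` is effective: it is a combination with nonnegative real
coefficients of integral combinations `∑ i, μ b i * D i` which have nonzero sections. -/
def Effective (lam : Fin p → ℝ) : Prop :=
  ∃ (M : ℕ) (μ : Fin M → Fin p → ℤ) (t : Fin M → ℝ), (∀ b, 0 ≤ t b) ∧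
    (∀ b, ∃ f : K, f ≠ 0 ∧ IsSection N δ {1} (μ b) 0 f) ∧ ∀ i, lam i = ∑ b, t b * μ b i

/-- The effective nef cone: the real combinations `∑ i, lam i * D i` which are nef and effective. -/
def effectiveNefCone : Set (Fin p → ℝ) := {lam | Nef N δ lam ∧ Effective N δ lam}

end sections

/-- The linear map of the real vector space which is given by an integral matrix. -/
def act {p : ℕ} (g : GL (Fin p) ℤ) (lam : Fin p → ℝ) : Fin p → ℝ :=
  fun i => ∑ j, ((g : Matrix (Fin p) (Fin p) ℤ) i j : ℝ) * lam j

/-- The rational polyhedral cone which is generated by integral vectors. -/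
def rationalCone {p M : ℕ} (h : Fin M → Fin p → ℤ) : Set (Fin p → ℝ) :=
  {lam | ∃ t : Fin M → ℝ, (∀ b, 0 ≤ t b) ∧ ∀ i, lam i = ∑ b, t b * h b i}

/-- **Fundamental domains.** Let `K` be the function field of an abelian cover `Y` of the product of
the projective `n i`-spaces which is branched along smooth hypersurfaces `F i = 0` of the factors, `X`
the toroidal modification of `Y` which is given by `fan`, and `D i`, `i < p`, toroidal `ℚ`-Cartier
divisors on `X` with the degrees `β i t` and the coefficients `c i`. Assume that the effective nef
cone (of the real combinations of the `D i`) contains no line and has interior points. Let `Γ` be a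
group of invertible integral matrices which map this cone into itself. Then `Γ` is finite, and there
is a rational polyhedral cone, generated by base point free integral combinations, whose images under
`Γ` cover the effective nef cone, and whose interior is disjoint from the interiors of its images
under all `g ≠ 1` in `Γ`. -/
theorem result (r N R p : ℕ) (n d : Fin r → ℕ) (hr : 1 ≤ r) (hn : ∀ i, 1 ≤ n i)
    (hd : ∀ i, 1 ≤ d i) (hN : N = ∑ i, n i)
    (F : ∀ i, MvPolynomial (Fin (n i + 1)) ℂ) (hF : ∀ i, (F i).IsHomogeneous (d i))
    (hs : ∀ i, Smooth (F i)) (m : Fin R → ℕ) (hm : ∀ j, 1 ≤ m j) (a : Fin R → Fin r → ℕ)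
    (hdiv : ∀ j i, m j ∣ a j i * d i)
    (K : Type) [Field K] [Algebra ℂ K] (x : ∀ i, Fin (n i + 1) → K) (hx0 : ∀ i, x i 0 ≠ 0)
    (hbas : IsTranscendenceBasis ℂ (affine x)) (z : Fin R → K)
    (hz : ∀ j, z j ^ m j = ∏ i, (aeval (x i) (F i) / x i 0 ^ d i) ^ a j i)
    (hgen : IntermediateField.adjoin ℂ (Set.range (affine x) ∪ Set.range z) = ⊤)
    (fan : Finset (Finset (Fin r → ℕ))) (hfan : IsFan m a fan)
    (c : Fin p → (Fin r → ℕ) → ℚ) (hc0 : ∀ i, c i 0 = 0) (β : Fin p → Fin r → ℤ)
    (u : Finset (Fin r → ℕ) → Fin p → Fin r → ℚ)
    (hlin : ∀ σ ∈ fan, ∀ i v, Admissible m a v → InCone σ v → - c i v = ∑ k, u σ i k * v k)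
    (δ : Fin p → Place ℂ K → ℚ) (hδ : ∀ i P, δ i P = coefficient F d x (c i) (β i) P)
    (hline : ∀ lam ∈ effectiveNefCone N δ, -lam ∈ effectiveNefCone N δ → lam = 0)
    (hint : (interior (effectiveNefCone N δ)).Nonempty) (Γ : Subgroup (GL (Fin p) ℤ))
    (hΓ : ∀ g ∈ Γ, ∀ lam ∈ effectiveNefCone N δ, act g lam ∈ effectiveNefCone N δ) :
    Finite Γ ∧ ∃ (M : ℕ) (h : Fin M → Fin p → ℤ), (∀ b, BasePointFree N δ (h b)) ∧
      effectiveNefCone N δ = ⋃ g ∈ Γ, act g '' rationalCone h ∧
      ∀ g ∈ Γ, g ≠ 1 →
        interior (rationalCone h) ∩ act g '' interior (rationalCone h) = ∅ := by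
  have hfan' : Pool.Agent.Q57.FT.Fan m a fan := ⟨hfan.adm, hfan.full, hfan.cover⟩
  obtain ⟨N0, h0, h1, h2⟩ := Pool.Agent.Q57.FT.main_nefcone (N := N) hr hn hN hd hF hs hx0 hbas hm
    hdiv hz hgen (S := fan) hfan' hc0 (u := u) hlin (β := β) hδ
  obtain ⟨w, hw⟩ := Pool.Agent.Q57.FD.exists_adm hr hm a
  obtain ⟨P0, -, -, hP0, -⟩ := Pool.Agent.Q57.FD.exists_over (N := N) hr hn hN hd hF hs hx0 hbas hm
    hdiv hz hgen hw
  have hsec : ∀ {μ : Fin p → ℤ} {f : K}, Pool.Agent.Q57.FT.ZSec N δ μ f →
      IsSection N δ {1} μ 0 f := by
    intro μ f hf P hP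
    refine (hf P hP).imp id fun h5 => ⟨1, by simp, one_ne_zero, ?_⟩
    rw [P.ord_one]
    push_cast at h5 ⊢
    linarith
  -- all nef combinations are effective
  have hiff : ∀ lam, lam ∈ effectiveNefCone N δ ↔ Pool.Agent.Q57.FT.NefZ N δ lam := by
    intro lam
    refine ⟨fun h => h.1, fun h => ⟨h, ?_⟩⟩
    obtain ⟨t, ht, hlt⟩ := (h2 lam).2.1 h
    refine ⟨N0, h0, t, ht, fun b => ?_, hlt⟩
    obtain ⟨f, hf0, hf, -⟩ := h1 b P0 hP0
    exact ⟨f, hf0, hsec hf⟩
  have hset : effectiveNefCone N δ = {lam | Pool.Agent.Q57.FT.NefZ N δ lam} := Set.ext hiff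
  rw [hset] at hint
  obtain ⟨hfin, M, h, h3, h4, h5⟩ := Pool.Agent.Q57.FD.main_nefdom (N := N) hr hn hN hd hF hs hx0
    hbas hm hdiv hz hgen (S := fan) hfan' hc0 (u := u) hlin (β := β) hδ
    (fun lam hl hl' => hline lam ((hiff _).2 hl) ((hiff _).2 hl')) hint Γ
    (fun g hg lam hl => (hiff _).1 (hΓ g hg lam ((hiff _).2 hl)))
  refine ⟨hfin, M, h, fun b P hP => ?_, ?_, fun g hg hg1 => ?_⟩
  · obtain ⟨f, hf0, hf, hle⟩ := h3 b P hP
    exact ⟨f, hf0, hsec hf, hle⟩
  · ext lam
    rw [hiff, h4, Set.mem_iUnion₂]
    constructor
    · rintro ⟨g, hg, y, hy, rfl⟩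
      exact ⟨g, hg, y, hy, rfl⟩
    · rintro ⟨g, hg, y, hy, rfl⟩
      exact ⟨g, hg, y, hy, rfl⟩
  · have h6 := Set.disjoint_iff_inter_eq_empty.1 (h5 g hg hg1)
    refine Set.subset_empty_iff.1 (le_trans (Set.inter_subset_inter_right _
      (Set.image_mono interior_subset)) h6.le)

end Pool.Agent.Results.MP_e49dc9_ag.FundamentalDomains
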